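import Pool.Agent.Y742.SP.All
import Pool.Agent.Y742.CN.Main

/-! Special and potentially dense: the two sides of Campana's conjecture for varieties connected by
fibrations in curves of genus at most one. -/

set_option autoImplicit false

namespace Pool.Agent.Y742.SP

open MvPolynomial AlgebraicGeometry CategoryTheory Pool.Agent.Y742.GG Pool.Agent.W602.GT
open Pool.Agent.W572 Pool.Agent.W572.G

theorem special_main {Ω : Type} [Field Ω] [CharZero Ω] {N m : ℕ} {G : MvPolynomial (Fin N) Ω}
    {K : Type} [Field K] [Algebra Ω K] {x : Fin N → K} (hx : IsGenericPoint G x)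
    (L : Fin m → IntermediateField Ω K)
    (hL : ∀ i, IsDoubleCoverOfLine (L i) ∨ IsEllipticTorsor (L i))
    (hinv : ∀ a : K, (∀ i, IsAlgebraic (L i) a) → a ∈ Set.range (algebraMap Ω K)) :
    ∃ w : ℕ, Algebra.trdeg Ω K = w ∧ Special Ω K w (fun _ => False) := by
  classical
  have halg : Algebra.IsAlgebraic (Algebra.adjoin Ω (Set.range x)) K := by
    rw [← IntermediateField.isAlgebraic_adjoin_iff_top, hx.generates]
    exact ⟨fun a => isAlgebraic_algebraMap (⟨a, trivial⟩ : (⊤ : IntermediateField Ω K))⟩
  obtain ⟨s, hs, hs'⟩ := exists_isTranscendenceBasis_subset (R := Ω) (Set.range x)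
  have hfin : s.Finite := (Set.finite_range x).subset hs
  have : Finite s := hfin
  have htr : Algebra.trdeg Ω K = (Nat.card s : ℕ) := by
    rw [← hs'.cardinalMk_eq_trdeg, Nat.cast_card]
  refine ⟨Nat.card s, htr, sSpecialAll Ω K (Fin m) (Nat.card s)
    ⟨Finset.univ.image x, ?_⟩ htr L hL fun a ha => ?_⟩
  · rw [Finset.coe_image, Finset.coe_univ, Set.image_univ]
    exact hx.generates
  · obtain ⟨b, hb⟩ := hinv a ha
    rw [← hb]
    exact isAlgebraic_algebraMap b

end Pool.Agent.Y742.SP
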