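import Pool.Agent.Y742.SP.Stm
import Pool.Agent.Y86.SP.Good
import Pool.Agent.Y21.SP.TorA2
import Pool.Agent.Y971.SP.ChartP
import Pool.Agent.Y37.SP.Double
import Pool.Agent.Y109.SP.TorB
import Pool.Agent.Y590.SP.FormP
import Pool.Agent.Y689.SP.Fin
import Pool.Agent.Y954.SP.Pole

/-! Assembly of project SP (authors of the parts: helpers 954, 86, 971, 37, 21, 109, 590, 689). -/

set_option autoImplicit false

namespace Pool.Agent.Y742.SP

theorem sGoodAll : SGood := Pool.Agent.Y86.SP.sGood Pool.Agent.Y971.SP.sChart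

theorem sSpecialAll : SSpecial :=
  Pool.Agent.Y689.SP.sSpecial (Pool.Agent.Y37.SP.sDouble sGoodAll)
    (Pool.Agent.Y109.SP.sTorsor (Pool.Agent.Y21.SP.sTorA sGoodAll))
    (Pool.Agent.Y590.SP.sForm Pool.Agent.Y954.SP.sPole Pool.Agent.Y86.SP.sDiv)

end Pool.Agent.Y742.SP
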