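import Pool.Agent.W602.GT.SpecDefs
import Pool.Agent.Y742.GG.Main

/-!
# Specialness of varieties with fibrations in curves of genus at most one: statements (helper742)
-/

set_option autoImplicit false

namespace Pool.Agent.Y742.SP

open FF MvPolynomial Pool.Agent.W602.GT Pool.Agent.Y742.GG

section

variable {Ω K : Type} [Field Ω] [Field K] [Algebra Ω K]

/-- The place `P` is trivial on the subfield `L`. -/
def TrivOn (P : Place Ω K) (L : IntermediateField Ω K) : Prop := ∀ a ∈ L, a ≠ 0 → P.ord a = 0

/-- The vector field `D` is regular at `P`, and every derivation which maps `L` to `L` becomes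
regular at `P` after adding a multiple of `D`. -/
def GoodAt (P : Place Ω K) (L : IntermediateField Ω K) (D : Derivation Ω K K) : Prop :=
  DerReg P D ∧ ∀ E : Derivation Ω K K, (∀ a ∈ L, E a ∈ L) → ∃ g : K, DerReg P (E + g • D)

/-- `K` is a finitely generated field of transcendence degree one over `L`. -/
def IsCurve (L : IntermediateField Ω K) : Prop :=
  ∃ (t : K) (S : Finset K), Transcendental L t ∧
    (∀ b : K, IsAlgebraic (IntermediateField.adjoin L {t}) b) ∧
    IntermediateField.adjoin L (S : Set K) = ⊤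

end

/-- P1: functions which are not constant on the curve have poles. -/
def SPole : Prop := ∀ (Ω K : Type) [Field Ω] [CharZero Ω] [Field K] [Algebra Ω K]
    (L : IntermediateField Ω K), IsCurve L → ∀ f : K, Transcendental L f →
    ∃ P : Place Ω K, TrivOn P L ∧ P.ord f < 0

/-- P2: the places which are trivial on `L` are divisorial. -/
def SDiv : Prop := ∀ (Ω K : Type) [Field Ω] [CharZero Ω] [Field K] [Algebra Ω K]
    (L : IntermediateField Ω K) (n : ℕ) (y : Fin n → L), IsTranscendenceBasis Ω y →
    ∀ P : Place Ω K, TrivOn P L → Divisorial (n + 1) P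

/-- The place `P` is centred at a smooth point of the plane affine curve `H = 0` over `B`, with
generic point `z` and function field `M`. -/
structure Chart {Ω M : Type} [Field Ω] [Field M] [Algebra Ω M] (B : IntermediateField Ω M)
    (z : Fin 2 → M) (H : MvPolynomial (Fin 2) B) (P : Place Ω M) : Prop where
  triv : TrivOn P B
  zero : aeval z H = 0
  gen : IntermediateField.adjoin B (Set.range z) = ⊤
  reg : ∀ i, P.Reg (z i)
  smooth : ∃ i, aeval z (pderiv i H) ≠ 0 ∧ P.ord (aeval z (pderiv i H)) = 0

/-- P3: derivations which map the coordinates to regular functions are regular. -/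
def SChart : Prop := ∀ (Ω M : Type) [Field Ω] [CharZero Ω] [Field M] [Algebra Ω M]
    (B : IntermediateField Ω M) (z : Fin 2 → M) (H : MvPolynomial (Fin 2) B) (P : Place Ω M),
    Chart B z H P → ∀ E : Derivation Ω M M, (∀ c ∈ B, E c ∈ B) → (∀ i, P.Reg (E (z i))) →
    DerReg P E

/-- P4: the tangent vector field of a plane affine curve at a smooth point. -/
def SGood : Prop := ∀ (Ω M : Type) [Field Ω] [CharZero Ω] [Field M] [Algebra Ω M]
    (B : IntermediateField Ω M) (z : Fin 2 → M) (H : MvPolynomial (Fin 2) B) (P : Place Ω M),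
    Chart B z H P → ∀ D : Derivation Ω M M, (∀ c ∈ B, D c = 0) →
      D (z 0) = aeval z (pderiv 1 H) → D (z 1) = - aeval z (pderiv 0 H) → GoodAt P B D

/-- P5: double covers of the line. -/
def SDouble : Prop := ∀ (Ω K : Type) [Field Ω] [CharZero Ω] [Field K] [Algebra Ω K]
    (L : IntermediateField Ω K), IsDoubleCoverOfLine L →
    IsCurve L ∧ ∃ D : Derivation Ω K K, D ≠ 0 ∧ (∀ a ∈ L, D a = 0) ∧
      ∀ P : Place Ω K, TrivOn P L → GoodAt P L D

/-- P6: torsors under elliptic curves. -/
def STorsor : Prop := ∀ (Ω K : Type) [Field Ω] [CharZero Ω] [Field K] [Algebra Ω K]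
    (L : IntermediateField Ω K), IsEllipticTorsor L →
    (∃ S : Finset K, IntermediateField.adjoin Ω (S : Set K) = ⊤) →
    IsCurve L ∧ ∃ D : Derivation Ω K K, D ≠ 0 ∧ (∀ a ∈ L, D a = 0) ∧
      ∀ P : Place Ω K, TrivOn P L → GoodAt P L D

/-- P7: ratios of the sections of a Bogomolov sheaf are constant on the fibres. -/
def SForm : Prop := ∀ (Ω K : Type) [Field Ω] [CharZero Ω] [Field K] [Algebra Ω K]
    (L : IntermediateField Ω K) (n : ℕ) (y : Fin n → L), IsTranscendenceBasis Ω y → IsCurve L →
    ∀ D : Derivation Ω K K, D ≠ 0 → (∀ a ∈ L, D a = 0) →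
    (∀ P : Place Ω K, TrivOn P L → GoodAt P L D) →
    ∀ (p : ℕ) (θ : AlternatingMap K (Derivation Ω K K) K (Fin p)), θ ≠ 0 → ∀ (N : ℕ)
      (f : Fin (p + 1) → K), (∀ P : Place Ω K, Divisorial (n + 1) P →
        ∀ E : Fin p → Derivation Ω K K, (∀ i, DerReg P (E i)) → ∀ j, P.Reg (f j * θ E ^ N)) →
      f 0 ≠ 0 → ∀ j, IsAlgebraic L (f j / f 0)

/-- P8: varieties with fibrations in curves of genus at most one without common invariants are
special. -/
def SSpecial : Prop := ∀ (Ω K I : Type) [Field Ω] [CharZero Ω] [Field K] [Algebra Ω K] (w : ℕ),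
    (∃ S : Finset K, IntermediateField.adjoin Ω (S : Set K) = ⊤) → Algebra.trdeg Ω K = w →
    ∀ L : I → IntermediateField Ω K, (∀ i, IsDoubleCoverOfLine (L i) ∨ IsEllipticTorsor (L i)) →
    (∀ a : K, (∀ i, IsAlgebraic (L i) a) → IsAlgebraic Ω a) →
    Special Ω K w (fun _ => False)

end Pool.Agent.Y742.SP
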